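import Mathlib.Order.Filter.AtTopBot.Basic
import Mathlib.Algebra.Order.Archimedean.Real.Basic
import Mathlib.Tactic

set_option autoImplicit false

/-!
# Amplification by powers, when the dimension can be raised by two and by three

`Obj` are objects with a dimension, `D X t` says that the defect of `X` is at least `t`.
-/

namespace Pool.Agent.Q82.NP

open Filter

variable {Obj : Type*} {dim : Obj → ℕ} {D : Obj → ℝ → Prop}

theorem pad_any (h2 : ∀ X t, D X t → ∃ P, dim P = dim X + 2 ∧ D P t)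
    (h3 : ∀ X t, D X t → ∃ P, dim P = dim X + 3 ∧ D P t) :
    ∀ (r : ℕ), 2 ≤ r → ∀ (X : Obj) (t : ℝ), D X t → ∃ P, dim P = dim X + r ∧ D P t := by
  intro r
  induction r using Nat.strong_induction_on with
  | _ r ih =>
    intro hr X t hX
    rcases Nat.lt_or_ge r 4 with h4 | h4
    · rcases Nat.lt_or_ge r 3 with h5 | h5
      · obtain ⟨P, e1, e2⟩ := h2 X t hX
        exact ⟨P, by omega, e2⟩
      · obtain ⟨P, e1, e2⟩ := h3 X t hX
        exact ⟨P, by omega, e2⟩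
    · obtain ⟨P, e1, e2⟩ := ih (r - 2) (by omega) (by omega) X t hX
      obtain ⟨Q, e3, e4⟩ := h2 P t e2
      exact ⟨Q, by omega, e4⟩

theorem power (hprod : ∀ X Y s t, D X s → D Y t → ∃ P, dim P = dim X + dim Y ∧ D P (s + t)) :
    ∀ (k : ℕ) (X : Obj) (t : ℝ), D X t → ∃ P, dim P = (k + 1) * dim X ∧ D P ((k + 1) * t) := by
  intro k
  induction k with
  | zero => exact fun X t h => ⟨X, by simp, by simpa using h⟩
  | succ k ih =>
    intro X t h
    obtain ⟨P, h1, h2⟩ := ih X t h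
    obtain ⟨Q, h3, h4⟩ := hprod P X _ _ h2 h
    refine ⟨Q, by rw [h3, h1]; ring, ?_⟩
    have e : ((k + 1 : ℕ) + 1 : ℝ) * t = ((k : ℝ) + 1) * t + t := by push_cast; ring
    rw [e]
    exact h4

/-- an object of defect `t` and dimension `d` gives objects of every dimension `n ≥ d + 2` with
defect `⌊(n - 2) / d⌋ t` -/
theorem multiples (hprod : ∀ X Y s t, D X s → D Y t → ∃ P, dim P = dim X + dim Y ∧ D P (s + t))
    (h2 : ∀ X t, D X t → ∃ P, dim P = dim X + 2 ∧ D P t)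
    (h3 : ∀ X t, D X t → ∃ P, dim P = dim X + 3 ∧ D P t) {X : Obj} {t : ℝ} (h : D X t)
    (hd : 0 < dim X) (n : ℕ) (hn : dim X + 2 ≤ n) :
    ∃ P, dim P = n ∧ D P (((n - 2) / dim X : ℕ) * t) := by
  have hq : 0 < (n - 2) / dim X := Nat.div_pos (by omega) hd
  obtain ⟨k, hk⟩ : ∃ k, (n - 2) / dim X = k + 1 := ⟨(n - 2) / dim X - 1, by omega⟩
  obtain ⟨P, e1, e2⟩ := power hprod k X t h
  have e5 : (k + 1) * dim X ≤ n - 2 := by
    rw [← hk]
    exact Nat.div_mul_le_self _ _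
  obtain ⟨Q, e3, e4⟩ := pad_any h2 h3 (n - (k + 1) * dim X) (by omega) P _ e2
  refine ⟨Q, by omega, ?_⟩
  rw [hk]
  push_cast
  exact e4

theorem linear_growth
    (hprod : ∀ X Y s t, D X s → D Y t → ∃ P, dim P = dim X + dim Y ∧ D P (s + t))
    (h2 : ∀ X t, D X t → ∃ P, dim P = dim X + 2 ∧ D P t)
    (h3 : ∀ X t, D X t → ∃ P, dim P = dim X + 3 ∧ D P t) {X : Obj} {t : ℝ} (h : D X t)
    (ht : 0 < t) : ∃ c : ℝ, 0 < c ∧ ∃ N : ℕ, ∀ n : ℕ, N ≤ n → ∃ P s, dim P = n ∧ D P s ∧ c * n < s := by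
  obtain ⟨Y, hY1, hY2⟩ := h2 X t h
  set d := dim Y with hd
  have hd0 : 0 < d := by omega
  have hdR : (0 : ℝ) < d := by exact_mod_cast hd0
  refine ⟨t / (2 * d), by positivity, 2 * d + 5, fun n hn => ?_⟩
  obtain ⟨P, e1, e2⟩ := multiples hprod h2 h3 hY2 hd0 n (by omega)
  refine ⟨P, _, e1, e2, ?_⟩
  have e3 : (n : ℝ) < ((n - 2) / d : ℕ) * d + d + 2 := by
    have h4 := Nat.lt_div_mul_add (a := n - 2) hd0
    have h5 : n < (n - 2) / d * d + d + 2 := by omega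
    exact_mod_cast h5
  have e4 : (2 : ℝ) * d + 5 ≤ n := by exact_mod_cast hn
  have e6 : (n : ℝ) / (2 * d) < ((n - 2) / d : ℕ) := by
    rw [div_lt_iff₀ (by positivity)]
    nlinarith
  calc t / (2 * d) * n = (n : ℝ) / (2 * d) * t := by ring
    _ < ((n - 2) / d : ℕ) * t := mul_lt_mul_of_pos_right e6 ht

/-- **Amplification.** -/
theorem amplify (hprod : ∀ X Y s t, D X s → D Y t → ∃ P, dim P = dim X + dim Y ∧ D P (s + t))
    (h2 : ∀ X t, D X t → ∃ P, dim P = dim X + 2 ∧ D P t)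
    (h3 : ∀ X t, D X t → ∃ P, dim P = dim X + 3 ∧ D P t) :
    (∀ X t, D X t → t ≤ 0) ↔
      ∀ c : ℝ, 0 < c → ∃ᶠ n : ℕ in atTop, ∀ X, dim X = n → ∀ s, D X s → s ≤ c * n := by
  constructor
  · intro h c hc
    refine (Eventually.of_forall fun n X _ s hs => ?_).frequently
    have := h X s hs
    have : 0 ≤ c * (n : ℝ) := by positivity
    linarith
  · intro h X t hX
    by_contra ht
    obtain ⟨c, hc, N, hN⟩ := linear_growth hprod h2 h3 hX (not_le.1 ht)
    obtain ⟨n, hn, hn2⟩ := (frequently_atTop.1 (h c hc)) N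
    obtain ⟨P, s, h1, h2, h3⟩ := hN n hn
    exact absurd (hn2 P h1 s h2) (not_le.2 h3)

end Pool.Agent.Q82.NP
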